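import Pool.Agent.Y97.AB.One
import Pool.Agent.Y333.FD.Ctr
import Pool.Agent.Y248.FD.Cup

/-!
# The tensors on the first cohomology given by algebraic classes form a closed system
-/

set_option linter.unusedSectionVars false
set_option linter.unusedVariables false

open CategoryTheory AlgebraicGeometry Finset

universe u v

namespace Pool.Agent.Y710.AB

open Pool.Agent.H914 Pool.Agent.H914.VarClass Pool.Agent.H914.VarClass.Obj
  Pool.Agent.H914.WeilCohomology Pool.Agent.H281R3.HT Pool.Agent.W552 Pool.Agent.W539.Ker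
  Pool.Agent.Y97 Pool.Agent.Y97.FD Pool.Agent.Y97.AB

variable {k : Type u} [Field k] {𝒱 : VarClass k} {ops : CycleOps 𝒱}
  {W : WeilCohomology.{u, v} ops} {P : Polarized 𝒱} {f : Module.End W.K (W.H P.X)}

/-- **The projectors of the factors onto the first cohomology are algebraic.** -/
theorem exists_pj (G : Gp W P.X P.D f) (b : HB W P.X) : ∀ (s : ℕ) (i : Fin (s + 1)),
    ∃ u : Module.End W.K (W.H (power ops P s).X), AOp W _ _ u ∧
      ∀ x, u (vec b s x) = (if b.dg (x i) = 1 then (1 : W.K) else 0) • vec b s x := by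
  have hact : ∀ i, proj (W.isInternal P.X) 1 (b.e i) =
      (if b.dg i = 1 then (1 : W.K) else 0) • b.e i := by
    intro i
    by_cases h : b.dg i = 1
    · rw [if_pos h, one_smul]
      exact proj_same _ (h ▸ b.mem i)
    · rw [if_neg h, zero_smul]
      exact proj_ne _ (b.mem i) h
  intro s
  induction s with
  | zero =>
    intro i
    obtain rfl : i = 0 := Fin.fin_one_eq_zero i
    exact ⟨proj (W.isInternal P.X) 1, G.pj 1, fun x => hact (x 0)⟩
  | succ s ih =>
    intro i
    refine Fin.cases ?_ (fun j => ?_) i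
    · refine ⟨extOp W (proj (W.isInternal P.X) 1) (1 : Module.End W.K (W.H (power ops P s).X)),
        (G.pj 1).ext AOp.one, ?_⟩
      intro x
      rw [vec_succ]
      have h1 : extOp W (proj (W.isInternal P.X) 1)
          (1 : Module.End W.K (W.H (power ops P s).X))
          (ext W (b.e (x 0)) (vec b s (fun i => x i.succ))) =
          ext W (proj (W.isInternal P.X) 1 (b.e (x 0))) (vec b s (fun i => x i.succ)) :=
        extOp_tmul _ _ _ _
      refine h1.trans ?_
      rw [hact]
      exact ext_smul_left _ _ _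
    · obtain ⟨u, hu, hu'⟩ := ih j
      refine ⟨extOp W (1 : Module.End W.K (W.H P.X)) u, AOp.one.ext hu, ?_⟩
      intro x
      rw [vec_succ]
      have h1 : extOp W (1 : Module.End W.K (W.H P.X)) u
          (ext W (b.e (x 0)) (vec b s (fun i => x i.succ))) =
          ext W (b.e (x 0)) (u (vec b s (fun i => x i.succ))) := extOp_tmul _ _ _ _
      refine h1.trans ?_
      rw [hu']
      exact ext_smul_right _ _ _

/-- The projector of a power onto the tensors on the first cohomology is algebraic. -/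
theorem exists_pall (G : Gp W P.X P.D f) (b : HB W P.X) (s : ℕ) (T : Finset (Fin (s + 1))) :
    ∃ u : Module.End W.K (W.H (power ops P s).X), AOp W _ _ u ∧
      ∀ x, u (vec b s x) = (if ∀ i ∈ T, b.dg (x i) = 1 then (1 : W.K) else 0) • vec b s x := by
  classical
  induction T using Finset.induction_on with
  | empty =>
    refine ⟨1, AOp.one, fun x => ?_⟩
    rw [if_pos (fun i hi => absurd hi (Finset.notMem_empty i)), one_smul]
    rfl
  | insert j T hj ih =>
    obtain ⟨u, hu, hu'⟩ := ih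
    obtain ⟨w, hw, hw'⟩ := exists_pj G b s j
    refine ⟨w * u, hw.mul hu, fun x => ?_⟩
    rw [Module.End.mul_apply, hu', map_smul, hw', smul_smul]
    congr 1
    by_cases h1 : b.dg (x j) = 1
    · by_cases h2 : ∀ i ∈ T, b.dg (x i) = 1
      · rw [if_pos h1, if_pos h2, if_pos, mul_one]
        intro i hi
        rcases Finset.mem_insert.1 hi with rfl | hi
        · exact h1
        · exact h2 i hi
      · have h3 : ¬ ∀ i ∈ insert j T, b.dg (x i) = 1 := fun h =>
          h2 fun i hi => h i (Finset.mem_insert_of_mem hi)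
        rw [if_neg h2, if_neg h3, zero_mul]
    · have h3 : ¬ ∀ i ∈ insert j T, b.dg (x i) = 1 := fun h =>
        h1 (h j (Finset.mem_insert_self j T))
      rw [if_neg h1, if_neg h3, mul_zero]

/-- The coordinates of the class with given coordinates. -/
theorem co_TT (b : HB W P.X) (s : ℕ) (g : (Fin (s + 1) → Fin (N1 b)) → W.K)
    (x : Fin (s + 1) → Fin (N1 b)) :
    co b s (TT (ops := ops) b s g) (fun l => j1 b (x l)) = g x := by
  rw [Pool.Agent.Y97.AB.TT, co_sum, Finset.sum_apply, Finset.sum_eq_single x]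
  · rw [co_smul, Pi.smul_apply, co_vec, if_pos rfl, smul_eq_mul, mul_one]
  · intro y _ hy
    rw [co_smul, Pi.smul_apply, co_vec, if_neg, smul_zero]
    intro h
    exact hy (funext fun l => j1_inj b (congrFun h l))
  · intro h
    exact absurd (Finset.mem_univ _) h

/-- The other coordinates of the class with given coordinates. -/
theorem co_TT_zero (b : HB W P.X) (s : ℕ) (g : (Fin (s + 1) → Fin (N1 b)) → W.K)
    {y : Fin (s + 1) → Fin b.N} {l : Fin (s + 1)} (hl : b.dg (y l) ≠ 1) :
    co b s (TT (ops := ops) b s g) y = 0 := by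
  rw [Pool.Agent.Y97.AB.TT, co_sum, Finset.sum_apply]
  refine Finset.sum_eq_zero fun x _ => ?_
  rw [co_smul, Pi.smul_apply, co_vec, if_neg, smul_zero]
  intro h
  apply hl
  rw [← congrFun h l]
  exact j1_dg b (x l)

theorem TT_as (G : Gp W P.X P.D f) (b : HB W P.X) {s : ℕ} {c : W.H (power ops P s).X}
    (hc : AS W _ c) :
    AS W _ (TT (ops := ops) b s (fun x => co b s c (fun l => j1 b (x l)))) := by
  classical
  obtain ⟨u, hu, hu'⟩ := exists_pall G b s Finset.univ
  have h1 : u c = TT (ops := ops) b s (fun x => co b s c (fun l => j1 b (x l))) := by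
    apply co_inj b s
    funext y
    rw [co_map]
    have h2 : ∀ x, co b s c x * co b s (u (vec b s x)) y =
        if x = y then (if ∀ i ∈ (Finset.univ : Finset (Fin (s + 1))), b.dg (y i) = 1
          then co b s c y else 0) else 0 := by
      intro x
      rw [hu', co_smul, Pi.smul_apply, co_vec, smul_eq_mul]
      by_cases hxy : x = y
      · subst hxy
        rw [if_pos rfl, if_pos rfl, mul_one]
        by_cases h : ∀ i ∈ (Finset.univ : Finset (Fin (s + 1))), b.dg (x i) = 1
        · rw [if_pos h, if_pos h, mul_one]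
        · rw [if_neg h, if_neg h, mul_zero]
      · rw [if_neg hxy, if_neg hxy, mul_zero, mul_zero]
    rw [Finset.sum_congr rfl fun x _ => h2 x, Finset.sum_ite_eq' Finset.univ y,
      if_pos (Finset.mem_univ y)]
    by_cases h : ∀ i ∈ (Finset.univ : Finset (Fin (s + 1))), b.dg (y i) = 1
    · rw [if_pos h]
      choose x hx using fun i => j1_surj b (h i (Finset.mem_univ i))
      have h3 : y = fun l => j1 b (x l) := funext fun l => (hx l).symm
      rw [h3, co_TT]
    · rw [if_neg h]
      push Not at h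
      obtain ⟨i, -, hi⟩ := h
      exact (co_TT_zero b s _ hi).symm
  rw [← h1]
  exact hu.apply hc

/-- The restriction of a tensor to the first cohomology. -/
noncomputable def rs (b : HB W P.X) {n : ℕ} (g : (Fin n → Fin b.N) → W.K) :
    (Fin n → Fin (N1 b)) → W.K := fun x => g (fun l => j1 b (x l))

theorem a1_iff (b : HB W P.X) {n : ℕ} {g : (Fin n → Fin (N1 b)) → W.K} :
    A1 (ops := ops) b n g ↔ ∃ g₀, A0 (ops := ops) b n g₀ ∧ g = rs b g₀ := by
  rcases n with _ | s
  · constructor
    · rintro ⟨q, rfl⟩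
      exact ⟨fun _ => (q : W.K), ⟨q, rfl⟩, rfl⟩
    · rintro ⟨_, ⟨q, rfl⟩, rfl⟩
      exact ⟨q, rfl⟩
  · constructor
    · rintro ⟨c, hc, rfl⟩
      exact ⟨co b s c, ⟨c, hc, rfl⟩, rfl⟩
    · rintro ⟨_, ⟨c, hc, rfl⟩, rfl⟩
      exact ⟨c, hc, rfl⟩

/-- Tensors supported on the first cohomology. -/
theorem a1_supp (G : Gp W P.X P.D f) (b : HB W P.X) {n : ℕ} {g : (Fin n → Fin (N1 b)) → W.K}
    (hg : A1 (ops := ops) b n g) : ∃ g₀, A0 (ops := ops) b n g₀ ∧ g = rs b g₀ ∧
      ∀ (y : Fin n → Fin b.N) (l : Fin n), b.dg (y l) ≠ 1 → g₀ y = 0 := by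
  rcases n with _ | s
  · obtain ⟨q, rfl⟩ := hg
    exact ⟨fun _ => (q : W.K), ⟨q, rfl⟩, rfl, fun y l => l.elim0⟩
  · obtain ⟨c, hc, rfl⟩ := hg
    refine ⟨co b s (TT (ops := ops) b s (fun x => co b s c (fun l => j1 b (x l)))),
      ⟨_, TT_as G b hc, rfl⟩, ?_, fun y l hl => co_TT_zero b s _ hl⟩
    funext x
    exact (co_TT b s (fun x => co b s c (fun l => j1 b (x l))) x).symm

/-- Sums over the basis vectors of degree one. -/
theorem sum_j1 {M : Type*} [AddCommMonoid M] (b : HB W P.X) (F : Fin b.N → M)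
    (hF : ∀ i, b.dg i ≠ 1 → F i = 0) : ∑ i, F i = ∑ a, F (j1 b a) := by
  classical
  symm
  apply Finset.sum_bij_ne_zero (fun a _ _ => j1 b a)
  · intro a _ _
    exact Finset.mem_univ _
  · intro a _ _ a' _ _ h
    exact j1_inj b h
  · intro i _ hi
    have h1 : b.dg i = 1 := by
      by_contra h
      exact hi (hF i h)
    obtain ⟨a, rfl⟩ := j1_surj b h1
    exact ⟨a, Finset.mem_univ _, hi, rfl⟩
  · intro a _ _
    rfl

theorem G1_eq (b : HB W P.X) {q : ℚ} (hq1 : bf W P.X P.D f 1 1 = (q : W.K))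
    (i j : Fin (N1 b)) : G1 b f i j = (q : W.K)⁻¹ * Gm b f (j1 b i) (j1 b j) := by
  rw [G1, Matrix.of_apply, hq1, div_eq_inv_mul]
  rfl

theorem Gm_deg (G : Gp W P.X P.D f) (b : HB W P.X) {i j : Fin b.N} (h : b.dg i ≠ b.dg j) :
    Gm b f i j = 0 := G.fr.bf_deg (b.mem i) (b.mem j) h

theorem gpar_j1 (b : HB W P.X) (i : Fin (N1 b)) : gpar b (j1 b i) = true := by
  rw [gpar, j1_dg]
  rfl

/-- **The tensors on the first cohomology given by algebraic classes form a closed system.** -/
theorem a1_closed (G : Gp W P.X P.D f) (b : HB W P.X) {q : ℚ} (hq : q ≠ 0)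
    (hq1 : bf W P.X P.D f 1 1 = (q : W.K)) :
    ClosedN (fun _ => true) (G1 b f) (A1 (ops := ops) b) where
  sub n := by
    have h0 := a0_sub (ops := ops) (b := b) n
    refine ⟨a1_iff b |>.2 ⟨0, h0.zero, rfl⟩, ?_, ?_⟩
    · intro x y hx hy
      obtain ⟨x₀, hx₀, rfl⟩ := (a1_iff b).1 hx
      obtain ⟨y₀, hy₀, rfl⟩ := (a1_iff b).1 hy
      exact (a1_iff b).2 ⟨x₀ + y₀, h0.add hx₀ hy₀, rfl⟩
    · intro r x hx
      obtain ⟨x₀, hx₀, rfl⟩ := (a1_iff b).1 hx
      exact (a1_iff b).2 ⟨(r : W.K) • x₀, h0.smul r hx₀, rfl⟩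
  perm σ g hg := by
    obtain ⟨g₀, hg₀, rfl⟩ := (a1_iff b).1 hg
    exact (a1_iff b).2 ⟨rel σ g₀, a0_perm (Pool.Agent.Y333.FD.exists_pz G b) σ hg₀, rfl⟩
  tmul {n m} g h hg hh := by
    obtain ⟨g₀, hg₀, rfl⟩ := (a1_iff b).1 hg
    obtain ⟨h₀, hh₀, rfl⟩ := (a1_iff b).1 hh
    obtain ⟨e, he⟩ := a0_tmul (ops := ops) hg₀ hh₀
    exact ⟨e, (a1_iff b).2 ⟨rel e (tmul g₀ h₀), he, rfl⟩⟩
  ctr {n} g hg := by
    obtain ⟨g₀, hg₀, rfl, hs⟩ := a1_supp G b hg
    have h1 := Pool.Agent.Y333.FD.a0_ctr G b hg₀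
    have h2 := (a0_sub (ops := ops) (b := b) n).smul q⁻¹ h1
    refine (a1_iff b).2 ⟨_, h2, ?_⟩
    funext I
    have h3 : ∀ (i j : Fin b.N), b.dg i ≠ 1 ∨ b.dg j ≠ 1 →
        Gm b f i j * g₀ (Fin.cons i (Fin.cons j fun l => j1 b (I l))) = 0 := by
      intro i j h
      rcases h with h | h
      · rw [hs _ 0 h, mul_zero]
      · rw [hs _ 1 h, mul_zero]
    have h4 : rs b ((((q⁻¹ : ℚ) : ℚ) : W.K) • fun I : Fin n → Fin b.N =>
        ∑ i, ∑ j, Gm b f i j * g₀ (Fin.cons i (Fin.cons j I))) I =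
        (q : W.K)⁻¹ * ∑ i, ∑ j, Gm b f i j *
          g₀ (Fin.cons i (Fin.cons j fun l => j1 b (I l))) := by
      rw [rs, Pi.smul_apply, smul_eq_mul, Rat.cast_inv]
    rw [h4, sum_j1 b _ (fun i hi => Finset.sum_eq_zero fun j _ => h3 i j (Or.inl hi)),
      Finset.mul_sum]
    refine Finset.sum_congr rfl fun i _ => ?_
    rw [sum_j1 b _ (fun j hj => h3 (j1 b i) j (Or.inr hj)), Finset.mul_sum]
    refine Finset.sum_congr rfl fun j _ => ?_
    rw [G1_eq b hq1, mul_assoc]
    congr 2
    rw [rs]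
    congr 1
    funext l
    refine Fin.cases rfl (fun l => ?_) l
    exact Fin.cases rfl (fun l => rfl) l
  cup c := by
    cases c with
    | false =>
      refine ⟨0, fun i j => ?_, ?_⟩
      · rw [Matrix.mul_zero, Matrix.zero_mul]
        rfl
      · exact (a1_iff b).2 ⟨0, (a0_sub (ops := ops) (b := b) 2).zero, rfl⟩
    | true =>
      obtain ⟨Cu, hCu, hCu'⟩ := Pool.Agent.Y248.FD.a0_cup (ops := ops) G b true
      have hqK : (q : W.K) ≠ 0 := by exact_mod_cast hq
      refine ⟨Matrix.of fun i j => (q : W.K) * Cu (j1 b i) (j1 b j), fun i j => ?_, ?_⟩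
      · have h1 := hCu (j1 b i) (j1 b j)
        rw [if_pos (gpar_j1 b i)] at h1
        rw [if_pos rfl, G1_eq b hq1 i j, ← h1]
        simp only [Matrix.mul_apply, Matrix.transpose_apply, Matrix.of_apply]
        have h2 : ∀ y, (∑ x, Gm b f x (j1 b i) * Cu x y) * Gm b f y (j1 b j) =
            (∑ a, Gm b f (j1 b a) (j1 b i) * Cu (j1 b a) y) * Gm b f y (j1 b j) := by
          intro y
          rw [sum_j1 b (fun x => Gm b f x (j1 b i) * Cu x y)]
          intro x hx
          rw [Gm_deg G b (by rwa [j1_dg]), zero_mul]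
        rw [Finset.sum_congr rfl fun y _ => h2 y, sum_j1 b _ (fun y hy => by
          rw [Gm_deg G b (by rwa [j1_dg]), mul_zero]), Finset.mul_sum]
        refine Finset.sum_congr rfl fun y _ => ?_
        rw [G1_eq b hq1 y j, Finset.sum_mul, Finset.sum_mul, Finset.mul_sum]
        refine Finset.sum_congr rfl fun x _ => ?_
        rw [G1_eq b hq1 x i]
        field_simp
      · refine (a1_iff b).2 ⟨_, (a0_sub (ops := ops) (b := b) 2).smul q hCu', ?_⟩
        rfl
  rat h := h
  one := ⟨1, by simp⟩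
  even {n} g hg I := by
    obtain ⟨g₀, hg₀, rfl⟩ := (a1_iff b).1 hg
    have h1 := Pool.Agent.Y333.FD.a0_even G b hg₀ (fun l => j1 b (I l))
    simp only [gpar_j1] at h1
    exact h1

/-- The normalized matrix of the form on the first cohomology is antisymmetric and invertible. -/
theorem G1_cond (G : Gp W P.X P.D f) (b : HB W P.X) {q : ℚ} (hq : q ≠ 0)
    (hq1 : bf W P.X P.D f 1 1 = (q : W.K)) :
    (∀ i j, G1 b f j i = -(G1 b f i j)) ∧ (G1 b f).det ≠ 0 := by
  classical
  have hqK : (q : W.K) ≠ 0 := by exact_mod_cast hq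
  constructor
  · intro i j
    rw [G1_eq b hq1, G1_eq b hq1, Gm_symm G.gd b (j1 b i) (j1 b j), if_pos (gpar_j1 b i)]
    ring
  · intro h0
    obtain ⟨v, hv, hv0⟩ := Matrix.exists_mulVec_eq_zero_iff.2 h0
    apply Gm_det G.gd b
    apply Matrix.exists_mulVec_eq_zero_iff.1
    refine ⟨fun i => ∑ a, if j1 b a = i then v a else 0, ?_, ?_⟩
    · intro h
      apply hv
      funext a
      have h1 := congrFun h (j1 b a)
      rw [Finset.sum_eq_single a (fun a' _ ha' => if_neg fun h => ha' (j1_inj b h))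
        (fun h => absurd (Finset.mem_univ _) h), if_pos rfl] at h1
      exact h1
    · funext r
      rw [Matrix.mulVec, dotProduct, Pi.zero_apply]
      have h1 : ∀ i, Gm b f r i * (∑ a, if j1 b a = i then v a else 0) =
          ∑ a, if j1 b a = i then Gm b f r (j1 b a) * v a else 0 := by
        intro i
        rw [Finset.mul_sum]
        refine Finset.sum_congr rfl fun a _ => ?_
        by_cases h : j1 b a = i
        · rw [if_pos h, if_pos h, h]
        · rw [if_neg h, if_neg h, mul_zero]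
      rw [Finset.sum_congr rfl fun i _ => h1 i, Finset.sum_comm]
      have h2 : ∀ a, (∑ i, if j1 b a = i then Gm b f r (j1 b a) * v a else 0) =
          Gm b f r (j1 b a) * v a := by
        intro a
        rw [Finset.sum_ite_eq Finset.univ (j1 b a), if_pos (Finset.mem_univ _)]
      rw [Finset.sum_congr rfl fun a _ => h2 a]
      by_cases hr : b.dg r = 1
      · obtain ⟨r, rfl⟩ := j1_surj b hr
        have h3 := congrFun hv0 r
        rw [Matrix.mulVec, dotProduct, Pi.zero_apply] at h3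
        have h4 : ∑ a, G1 b f r a * v a =
            (q : W.K)⁻¹ * ∑ a, Gm b f (j1 b r) (j1 b a) * v a := by
          rw [Finset.mul_sum]
          refine Finset.sum_congr rfl fun a _ => ?_
          rw [G1_eq b hq1, mul_assoc]
        rw [h4] at h3
        exact (mul_eq_zero.1 h3).resolve_left (inv_ne_zero hqK)
      · refine Finset.sum_eq_zero fun a _ => ?_
        rw [Gm_deg G b (by rwa [j1_dg]), zero_mul]

end Pool.Agent.Y710.AB

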